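import Pool.Agent.Results.MP_75608d_al.GapAllTuples
import Pool.Agent.X233.Mix.Abs

/-!
MP_75608d_al.  Short products of a fixed number of random even permutations are almost `r`-wise
independent, for all `r ≤ n ^ (1 - δ)` at the same time: with probability tending to `1` the lazy
random walk `g_t` on `A_n` satisfies `|n (n - 1) ⋯ (n - r + 1) P(g_t a = b) - 1| ≤ n ^ r e ^ (-c t)`
for all `r ≤ n ^ (1 - δ)`, all `t` and all `r`-tuples `a`, `b` of distinct points.  So `O(r log n)`
steps are enough, and every `r`-tuple can be moved to every other by a word of length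
`O(r log n)`.
-/

set_option autoImplicit false

namespace Pool.Agent.Results.MP_75608d_al.AlmostIndependence
open RC14 Finset Filter Topology

noncomputable section

/-- one step of the lazy walk on functions on `A_n`:
`f ↦ (f + P f) / 2`, `(P f)(g) = (1/2k) ∑_i (f(g x_i) + f(g x_i⁻¹))` -/
def lazyStep {n k : ℕ} (x : Fin k → Alt n) (f : Alt n → ℝ) (g : Alt n) : ℝ :=
  (f g + walk x f g) / 2

/-- the probability that the lazy walk from the identity is at `g` after `t` steps -/
def prob {n k : ℕ} (x : Fin k → Alt n) (t : ℕ) (g : Alt n) : ℝ :=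
  (lazyStep x)^[t] (fun h => if h = 1 then 1 else 0) g

/-- the probability that the lazy walk after `t` steps maps the tuple `a` to the tuple `b` -/
def probMap {n k r : ℕ} (x : Fin k → Alt n) (t : ℕ) (a b : Tup r n) : ℝ :=
  ∑ g : Alt n, if mv (g : Equiv.Perm (Fin n)) a = b then prob x t g else 0

/-- the permutation of the tuples given by `g` -/
def tupPerm {n r : ℕ} (g : Alt n) : Equiv.Perm (Tup r n) where
  toFun a := mv (g : Equiv.Perm (Fin n)) a
  invFun a := mv (g : Equiv.Perm (Fin n))⁻¹ a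
  left_inv a := by
    change mv _ (mv _ a) = a
    rw [← mv_mul]; simp
  right_inv a := by
    change mv _ (mv _ a) = a
    rw [← mv_mul]; simp

lemma tupPerm_inv {n r : ℕ} (g : Alt n) : (tupPerm g : Equiv.Perm (Tup r n))⁻¹ = tupPerm g⁻¹ := by
  ext a : 1
  rfl

lemma probMap_zero {n k r : ℕ} (x : Fin k → Alt n) (a b : Tup r n) :
    probMap x 0 a b = if a = b then 1 else 0 := by
  unfold probMap prob
  rw [Finset.sum_eq_single (1 : Alt n)]
  · simp
  · intro g _ hg
    simp [hg]
  · simp

lemma sum_shift {n k r : ℕ} (x : Fin k → Alt n) (t : ℕ) (a b : Tup r n) (h : Alt n) :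
    (∑ g : Alt n, if mv (g : Equiv.Perm (Fin n)) a = b then prob x t (g * h) else 0) =
      probMap x t (mv ((h⁻¹ : Alt n) : Equiv.Perm (Fin n)) a) b := by
  unfold probMap
  conv_rhs => rw [← Equiv.sum_comp (Equiv.mulRight h)]
  refine Finset.sum_congr rfl fun g _ => ?_
  rw [← mv_mul]
  have e : (((Equiv.mulRight h) g : Alt n) : Equiv.Perm (Fin n)) *
      ((h⁻¹ : Alt n) : Equiv.Perm (Fin n)) = g := by
    rw [← Subgroup.coe_mul]
    simp
  rw [e]
  rfl

lemma probMap_succ {n k r : ℕ} (x : Fin k → Alt n) (t : ℕ) (a b : Tup r n) :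
    probMap x (t + 1) a b = Pool.Agent.X233.Mix.lazy (fun i => tupPerm (x i))
      (fun a => probMap x t a b) a := by
  have e1 : ∀ g, prob x (t + 1) g =
      (prob x t g + (∑ i, (prob x t (g * x i) + prob x t (g * (x i)⁻¹))) / (2 * k)) / 2 := by
    intro g
    unfold prob
    rw [Function.iterate_succ_apply']
    rfl
  rw [Pool.Agent.X233.Mix.lazy_apply]
  have e2 : probMap x (t + 1) a b = (probMap x t a b + (∑ i,
      ((∑ g : Alt n, if mv (g : Equiv.Perm (Fin n)) a = b then prob x t (g * x i) else 0) +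
       (∑ g : Alt n, if mv (g : Equiv.Perm (Fin n)) a = b then prob x t (g * (x i)⁻¹) else 0))) /
        (2 * k)) / 2 := by
    have e3 : ∑ i, ((∑ g : Alt n, if mv (g : Equiv.Perm (Fin n)) a = b
          then prob x t (g * x i) else 0) +
        (∑ g : Alt n, if mv (g : Equiv.Perm (Fin n)) a = b
          then prob x t (g * (x i)⁻¹) else 0)) =
        ∑ g : Alt n, if mv (g : Equiv.Perm (Fin n)) a = b then
          ∑ i, (prob x t (g * x i) + prob x t (g * (x i)⁻¹)) else 0 := by
      simp_rw [← Finset.sum_add_distrib]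
      rw [Finset.sum_comm]
      refine Finset.sum_congr rfl fun g _ => ?_
      split_ifs with h
      · rfl
      · simp
    rw [e3]
    unfold probMap
    rw [Finset.sum_div, ← Finset.sum_add_distrib, Finset.sum_div]
    refine Finset.sum_congr rfl fun g _ => ?_
    rw [e1]
    split_ifs with h
    · rfl
    · simp
  rw [e2]
  congr 3
  refine Finset.sum_congr rfl fun i _ => ?_
  rw [sum_shift, sum_shift, add_comm, inv_inv]
  rfl

lemma probMap_eq {n k r : ℕ} (x : Fin k → Alt n) (t : ℕ) (b : Tup r n) :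
    (fun a => probMap x t a b) = (Pool.Agent.X233.Mix.lazy (fun i => tupPerm (x i)))^[t]
      (fun a => if a = b then 1 else 0) := by
  induction t with
  | zero => funext a; exact probMap_zero x a b
  | succ t ih =>
    rw [Function.iterate_succ_apply', ← ih]
    funext a
    exact probMap_succ x t a b

/-- the property: `|n (n-1) ⋯ (n-r+1) P(g_t a = b) - 1| ≤ n ^ r e ^ (-c t)` for all `r ≤ s`, all
`t` and all `r`-tuples `a`, `b` of distinct points -/
def AlmostIndependent (n : ℕ) {k : ℕ} (s c : ℝ) (x : Fin k → Alt n) : Prop :=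
  ∀ r : ℕ, (r : ℝ) ≤ s → ∀ (t : ℕ) (a b : Tup r n),
    |(n.descFactorial r : ℝ) * probMap x t a b - 1| ≤ (n : ℝ) ^ r * Real.exp (-(c * t))

/-- the property: every `r`-tuple of distinct points, `r ≤ s`, is mapped to every other one by a
product of at most `C (r log n + 1)` factors `x_i^{±1}` -/
def ShortWords (n : ℕ) {k : ℕ} (s C : ℝ) (x : Fin k → Alt n) : Prop :=
  ∀ r : ℕ, (r : ℝ) ≤ s → ∀ a b : Tup r n, ∃ w : List (Alt n),
    (w.length : ℝ) ≤ C * (r * Real.log n + 1) ∧ (∀ y ∈ w, ∃ i, y = x i ∨ y = (x i)⁻¹) ∧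
      mv (w.prod : Equiv.Perm (Fin n)) a = b

lemma indep_of_gap {n m k : ℕ} (hk : 1 ≤ k) {ε : ℝ} (hε1 : ε ≤ 1)
    {x : Fin k → Alt n} (h : GapAllTuples.GapUpTo n m ε x) {s : ℝ} (hs : ∀ r : ℕ, (r : ℝ) ≤ s →
      r ≤ m) : AlmostIndependent n s (ε / 2) x := by
  intro r hrs t a b
  have hrn : r ≤ n := by
    have := Fintype.card_le_of_embedding a
    simpa using this
  have hc : Fintype.card (Tup r n) = n.descFactorial r := by
    rw [Fintype.card_embedding_eq, Fintype.card_fin, Fintype.card_fin]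
  have hN : (0 : ℝ) < n.descFactorial r := by
    exact_mod_cast Nat.descFactorial_pos.2 hrn
  have h1 := Pool.Agent.X233.Mix.lazy_mix (fun i => (tupPerm (x i) : Equiv.Perm (Tup r n))) hk hε1
    (by
      intro f hf
      exact h.2 r (hs r hrs) f hf) t a b
  have h2 : probMap x t a b = (Pool.Agent.X233.Mix.lazy (fun i => tupPerm (x i)))^[t]
      (fun a => if a = b then 1 else 0) a := congrFun (probMap_eq x t b) a
  rw [← h2, hc] at h1
  have h3 : (n.descFactorial r : ℝ) * probMap x t a b - 1 =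
      n.descFactorial r * (probMap x t a b - 1 / n.descFactorial r) := by
    field_simp
  rw [h3, abs_mul, abs_of_pos hN]
  have h4 : (n.descFactorial r : ℝ) ≤ (n : ℝ) ^ r := by
    exact_mod_cast Nat.descFactorial_le_pow n r
  have h6 : (1 - ε / 2 : ℝ) ≤ Real.exp (-(ε / 2)) := by
    have := Real.add_one_le_exp (-(ε / 2))
    linarith
  have h7 : (1 - ε / 2 : ℝ) ^ t ≤ Real.exp (-(ε / 2 * t)) := by
    rw [← neg_mul, Real.exp_mul, Real.rpow_natCast]
    exact pow_le_pow_left₀ (by linarith) h6 t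
  exact mul_le_mul h4 (h1.trans h7) (abs_nonneg _) (by positivity)

/-- a positive probability gives a word -/
lemma exists_word {n k : ℕ} (x : Fin k → Alt n) (t : ℕ) (g : Alt n) (h : prob x t g ≠ 0) :
    ∃ w : List (Alt n), w.length ≤ t ∧ (∀ y ∈ w, ∃ i, y = x i ∨ y = (x i)⁻¹) ∧ w.prod = g := by
  induction t generalizing g with
  | zero =>
    refine ⟨[], le_rfl, by simp, ?_⟩
    unfold prob at h
    by_contra hne
    apply h
    simp only [Function.iterate_zero, id_eq]
    rw [if_neg]
    exact fun e => hne (by simp [e])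
  | succ t ih =>
    have e1 : prob x (t + 1) g =
        (prob x t g + (∑ i, (prob x t (g * x i) + prob x t (g * (x i)⁻¹))) / (2 * k)) / 2 := by
      unfold prob
      rw [Function.iterate_succ_apply']
      rfl
    by_cases h0 : prob x t g = 0
    · have h1 : ∑ i, (prob x t (g * x i) + prob x t (g * (x i)⁻¹)) ≠ 0 := by
        intro h2
        apply h
        rw [e1, h0, h2]
        simp
      obtain ⟨i, _, hi⟩ := Finset.exists_ne_zero_of_sum_ne_zero h1
      by_cases h3 : prob x t (g * x i) = 0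
      · have h4 : prob x t (g * (x i)⁻¹) ≠ 0 := fun h5 => hi (by rw [h3, h5, add_zero])
        obtain ⟨w, hw1, hw2, hw3⟩ := ih _ h4
        refine ⟨w ++ [x i], by simpa using hw1, ?_, by simp [hw3]⟩
        intro y hy
        rcases List.mem_append.1 hy with hy | hy
        · exact hw2 y hy
        · exact ⟨i, Or.inl (List.mem_singleton.1 hy)⟩
      · obtain ⟨w, hw1, hw2, hw3⟩ := ih _ h3
        refine ⟨w ++ [(x i)⁻¹], by simpa using hw1, ?_, by simp [hw3]⟩
        intro y hy
        rcases List.mem_append.1 hy with hy | hy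
        · exact hw2 y hy
        · exact ⟨i, Or.inr (List.mem_singleton.1 hy)⟩
    · obtain ⟨w, hw1, hw2, hw3⟩ := ih _ h0
      exact ⟨w, by omega, hw2, hw3⟩

lemma words_of_indep {n k : ℕ} (hn : 1 ≤ n) {x : Fin k → Alt n} {s c : ℝ} (hc : 0 < c)
    (h : AlmostIndependent n s c x) : ShortWords n s (1 / c + 2) x := by
  intro r hr a b
  have hn0 : (0 : ℝ) < n := by exact_mod_cast hn
  have hl : 0 ≤ Real.log n := Real.log_nonneg (by exact_mod_cast hn)
  set t : ℕ := ⌊r * Real.log n / c⌋₊ + 1 with ht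
  have ht1 : r * Real.log n / c < t := by
    rw [ht]; push_cast; exact Nat.lt_floor_add_one _
  have ht2 : (t : ℝ) ≤ r * Real.log n / c + 1 := by
    rw [ht]; push_cast
    linarith [Nat.floor_le (by positivity : 0 ≤ r * Real.log n / c)]
  have h1 := h r hr t a b
  have h2 : (n : ℝ) ^ r * Real.exp (-(c * t)) < 1 := by
    have e1 : (n : ℝ) ^ r = Real.exp (r * Real.log n) := by
      rw [mul_comm, Real.exp_mul, Real.exp_log hn0, Real.rpow_natCast]
    rw [e1, ← Real.exp_add]
    rw [div_lt_iff₀ hc] at ht1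
    rw [← Real.exp_zero]
    exact Real.exp_lt_exp.2 (by linarith)
  have h3 : probMap x t a b ≠ 0 := by
    intro h0
    rw [h0, mul_zero, zero_sub, abs_neg, abs_one] at h1
    linarith
  unfold probMap at h3
  obtain ⟨g, _, hg⟩ := Finset.exists_ne_zero_of_sum_ne_zero h3
  split_ifs at hg with hab
  · obtain ⟨w, hw1, hw2, hw3⟩ := exists_word x t g hg
    refine ⟨w, ?_, hw2, by rw [hw3]; exact hab⟩
    have hw1' : (w.length : ℝ) ≤ t := by exact_mod_cast hw1
    refine hw1'.trans (ht2.trans ?_)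
    have h5 : 0 ≤ 1 / c := by positivity
    have h6 : 0 ≤ (r : ℝ) * Real.log n := by positivity
    have h7 : r * Real.log n / c = 1 / c * (r * Real.log n) := by ring
    rw [h7]
    nlinarith
  · exact absurd rfl hg

theorem result (δ : ℝ) (hδ : 0 < δ) : ∃ k₀ : ℕ, ∀ k ≥ k₀, ∃ c C : ℝ, 0 < c ∧ 0 < C ∧
    Tendsto (fun n : ℕ =>
      (Nat.card {x : Fin k → Alt n // AlmostIndependent n ((n : ℝ) ^ (1 - δ)) c x ∧
        ShortWords n ((n : ℝ) ^ (1 - δ)) C x} : ℝ) /
        (Fintype.card (Alt n) : ℝ) ^ k) atTop (𝓝 1) := by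
  obtain ⟨k₀, hk₀⟩ := GapAllTuples.result δ hδ
  refine ⟨k₀ + 1, fun k hk => ?_⟩
  obtain ⟨ε, hε, hlim⟩ := hk₀ k (by omega)
  have hk1 : 1 ≤ k := by omega
  have hc : 0 < min ε 1 / 2 := by positivity
  refine ⟨min ε 1 / 2, 1 / (min ε 1 / 2) + 2, hc, by positivity, ?_⟩
  have hpos : ∀ n : ℕ, (0 : ℝ) < (Fintype.card (Alt n) : ℝ) := fun n => by
    exact_mod_cast Fintype.card_pos
  refine tendsto_of_tendsto_of_tendsto_of_le_of_le' hlim tendsto_const_nhds ?_ ?_
  · filter_upwards [eventually_ge_atTop 1] with n hn1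
    refine div_le_div_of_nonneg_right ?_ (pow_pos (hpos n) k).le
    exact_mod_cast RC14.card_mono (fun x : Fin k → Alt n =>
      GapAllTuples.GapUpTo n ⌊(n : ℝ) ^ (1 - δ)⌋₊ ε x)
      (fun x => AlmostIndependent n ((n : ℝ) ^ (1 - δ)) (min ε 1 / 2) x ∧
        ShortWords n ((n : ℝ) ^ (1 - δ)) (1 / (min ε 1 / 2) + 2) x)
      (fun x hx => by
        have h1 : AlmostIndependent n ((n : ℝ) ^ (1 - δ)) (min ε 1 / 2) x := by
          refine indep_of_gap hk1 (min_le_right _ _)
            (m := ⌊(n : ℝ) ^ (1 - δ)⌋₊) ?_ (fun r hr => Nat.le_floor hr)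
          have hle : ∀ A : ℝ, 0 ≤ A → (1 - ε) * A ≤ (1 - min ε 1) * A := fun A hA =>
            mul_le_mul_of_nonneg_right (by linarith [min_le_left ε 1]) hA
          exact ⟨fun f hf h0 => (hx.1 f hf h0).trans
              (hle _ (Finset.sum_nonneg fun _ _ => sq_nonneg _)),
            fun r hr f h0 => (hx.2 r hr f h0).trans
              (hle _ (Finset.sum_nonneg fun _ _ => sq_nonneg _))⟩
        exact ⟨h1, words_of_indep hn1 hc h1⟩)
  · refine Eventually.of_forall fun n => ?_
    rw [div_le_one (pow_pos (hpos n) k)]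
    have h1 : (Nat.card {x : Fin k → Alt n //
        AlmostIndependent n ((n : ℝ) ^ (1 - δ)) (min ε 1 / 2) x ∧
        ShortWords n ((n : ℝ) ^ (1 - δ)) (1 / (min ε 1 / 2) + 2) x} : ℝ) ≤
          Nat.card (Fin k → Alt n) := by
      exact_mod_cast Nat.card_le_card_of_injective _ Subtype.val_injective
    refine h1.trans (le_of_eq ?_)
    rw [Nat.card_fun, Nat.card_eq_fintype_card, Nat.card_eq_fintype_card, Fintype.card_fin]
    push_cast
    rfl

end

end Pool.Agent.Results.MP_75608d_al.AlmostIndependence
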