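import Pool.Agent.Results.MP_75608d_al.GapAllTuples
import Pool.Agent.X233.AltRep.Forms

/-!
MP_75608d_al.  A fixed number of random even permutations: with probability tending to `1` there is
a uniform spectral gap in ALL unitary representations of `A_n` of dimension at most
`exp (n ^ (1 - δ))` without invariant vectors (so in all nontrivial irreducible ones), and the
Schreier graphs of ALL transitive actions of `A_n` on at most `exp (n ^ (1 - δ))` points (of all
subgroups of index at most `exp (n ^ (1 - δ))`) are expanders, simultaneously.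

The proof combines the gap for tuples (`GapAllTuples`) with a new elementary lemma
(`Pool.Agent.X233.AltRep.exists_fixed`): a nonzero representation of `A_n`, `n ≥ 4 t + 5`, of
dimension less than `2 ^ (t + 1)` has a nonzero vector fixed by the pointwise stabiliser of at most
`4 t` points.  (Take disjoint sets of four points, as many as possible, whose Klein four groups
have a common eigenvector with nontrivial characters; the dimension doubles with each of them, and
by maximality the eigenvector is fixed by all even permutations of the other points.)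
-/

set_option autoImplicit false

namespace Pool.Agent.Results.MP_75608d_al.SmallRepresentations
open RC14 Finset Filter Topology
open scoped InnerProductSpace

noncomputable section

/-- the averaging operator of a unitary representation: `(1/2k) ∑_i (ρ(x_i) v + ρ(x_i)⁻¹ v)` -/
def repWalk {n k : ℕ} {V : Type} [NormedAddCommGroup V] [InnerProductSpace ℂ V]
    (ρ : Alt n →* (V ≃ₗᵢ[ℂ] V)) (x : Fin k → Alt n) (v : V) : V :=
  (1 / (2 * (k : ℂ))) • ∑ i, (ρ (x i) v + ρ (x i)⁻¹ v)

/-- the averaging operator of an action: `(1/2k) ∑_i (F(x_i y) + F(x_i⁻¹ y))` -/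
def actWalk {n k : ℕ} {X : Type} [MulAction (Alt n) X] (x : Fin k → Alt n) (F : X → ℝ) (y : X) :
    ℝ :=
  (∑ i, (F (x i • y) + F ((x i)⁻¹ • y))) / (2 * k)

/-- gap `ε` in every unitary representation of `A_n` of dimension at most `D` without nonzero
invariant vectors -/
def RepGap (n : ℕ) {k : ℕ} (D ε : ℝ) (x : Fin k → Alt n) : Prop :=
  ∀ (V : Type) [NormedAddCommGroup V] [InnerProductSpace ℂ V] [FiniteDimensional ℂ V]
    (ρ : Alt n →* (V ≃ₗᵢ[ℂ] V)), (Module.finrank ℂ V : ℝ) ≤ D →
    (∀ w, (∀ g, ρ g w = w) → w = 0) → ∀ v : V,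
      (⟪v, repWalk ρ x v⟫_ℂ).re ≤ (1 - ε) * ‖v‖ ^ 2

/-- gap `ε` for every transitive action of `A_n` on at most `D` points -/
def ActGap (n : ℕ) {k : ℕ} (D ε : ℝ) (x : Fin k → Alt n) : Prop :=
  ∀ (X : Type) [Fintype X] [MulAction (Alt n) X] [MulAction.IsPretransitive (Alt n) X],
    (Fintype.card X : ℝ) ≤ D → ∀ F : X → ℝ, ∑ y, F y = 0 →
      ∑ y, F y * actWalk x F y ≤ (1 - ε) * ∑ y, F y ^ 2

/-- both properties -/
def GapUpToDim (n : ℕ) {k : ℕ} (D ε : ℝ) (x : Fin k → Alt n) : Prop :=
  RepGap n D ε x ∧ ActGap n D ε x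

lemma gapDim_of_gap {n m t k : ℕ} {D ε : ℝ} {x : Fin k → Alt n} (hm : 4 * t ≤ m)
    (hn : 4 * t + 5 ≤ n) (hD : 2 * D < 2 ^ (t + 1)) (h : GapAllTuples.GapUpTo n m ε x) :
    GapUpToDim n D ε x := by
  refine ⟨fun V _ _ _ ρ hV hinv v => ?_, fun X _ _ _ hX F hF => ?_⟩
  · refine Pool.Agent.X233.AltRep.gap_unitary h.1 hm hn ρ hinv ?_ v
    have h1 : (2 : ℝ) * Module.finrank ℂ V < 2 ^ (t + 1) := by linarith
    exact_mod_cast h1
  · refine Pool.Agent.X233.AltRep.gap_perm h.1 hm hn ?_ F hF
    have h1 : (Fintype.card X : ℝ) < 2 ^ (t + 1) := by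
      have : (0 : ℝ) ≤ Fintype.card X := Nat.cast_nonneg _
      linarith
    exact_mod_cast h1

theorem result (δ : ℝ) (hδ : 0 < δ) : ∃ k₀ : ℕ, ∀ k ≥ k₀, ∃ ε : ℝ, 0 < ε ∧
    Tendsto (fun n : ℕ =>
      (Nat.card {x : Fin k → Alt n // GapUpToDim n (Real.exp ((n : ℝ) ^ (1 - δ))) ε x} : ℝ) /
        (Fintype.card (Alt n) : ℝ) ^ k) atTop (𝓝 1) := by
  set η : ℝ := min δ 1 / 2 with hη
  have hη0 : 0 < η := by
    have : 0 < min δ 1 := lt_min hδ one_pos
    positivity
  have hη1 : η ≤ 1 / 2 := by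
    have : min δ 1 ≤ 1 := min_le_right _ _
    linarith
  have hηδ : 1 - δ ≤ 1 - 2 * η := by
    have : min δ 1 ≤ δ := min_le_left _ _
    linarith
  obtain ⟨k₀, hk₀⟩ := GapAllTuples.result η hη0
  refine ⟨k₀, fun k hk => ?_⟩
  obtain ⟨ε, hε, hlim⟩ := hk₀ k hk
  refine ⟨ε, hε, ?_⟩
  have hpos : ∀ n : ℕ, (0 : ℝ) < (Fintype.card (Alt n) : ℝ) := fun n => by
    exact_mod_cast Fintype.card_pos
  refine tendsto_of_tendsto_of_tendsto_of_le_of_le' hlim tendsto_const_nhds ?_ ?_
  · filter_upwards [eventually_ge_atTop 1, ev_le (1 - 2 * η) (1 - η) 24 (by linarith),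
      ev_const (1 - η) 48 (by linarith)] with n hn1 h1 h2
    refine div_le_div_of_nonneg_right ?_ (pow_pos (hpos n) k).le
    have hn : (1 : ℝ) ≤ n := by exact_mod_cast hn1
    set s : ℝ := (n : ℝ) ^ (1 - 2 * η) with hs
    have hs0 : 0 ≤ s := by positivity
    set t : ℕ := ⌊2 * s⌋₊ + 1 with ht
    have ht1 : (t : ℝ) ≤ 2 * s + 1 := by
      have := Nat.floor_le (by positivity : (0 : ℝ) ≤ 2 * s)
      rw [ht]; push_cast; linarith
    have ht2 : 2 * s < t := by
      rw [ht]; push_cast; exact Nat.lt_floor_add_one _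
    have hle : (n : ℝ) ^ (1 - η) ≤ n := by
      calc (n : ℝ) ^ (1 - η) ≤ (n : ℝ) ^ (1 : ℝ) :=
            Real.rpow_le_rpow_of_exponent_le hn (by linarith)
        _ = n := Real.rpow_one _
    have h3 : (4 : ℝ) * t + 5 ≤ (n : ℝ) ^ (1 - η) := by linarith
    have hm : 4 * t ≤ ⌊(n : ℝ) ^ (1 - η)⌋₊ := by
      apply Nat.le_floor
      push_cast
      linarith
    have hn4 : 4 * t + 5 ≤ n := by
      have : ((4 * t + 5 : ℕ) : ℝ) ≤ n := by push_cast; linarith
      exact_mod_cast this
    have hD : 2 * Real.exp ((n : ℝ) ^ (1 - δ)) < 2 ^ (t + 1) := by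
      have e1 : (n : ℝ) ^ (1 - δ) ≤ s := Real.rpow_le_rpow_of_exponent_le hn hηδ
      have e2 : Real.exp ((n : ℝ) ^ (1 - δ)) < 2 ^ t := by
        have e3 : (2 : ℝ) ^ t = Real.exp (t * Real.log 2) := by
          rw [mul_comm, Real.exp_mul, Real.exp_log (by norm_num), Real.rpow_natCast]
        rw [e3]
        apply Real.exp_lt_exp.2
        have e4 : (1 / 2 : ℝ) < Real.log 2 := by
          have := Real.log_two_gt_d9
          linarith
        have e5 : (0 : ℝ) < t := by linarith
        nlinarith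
      rw [pow_succ]
      linarith
    exact_mod_cast RC14.card_mono (fun x : Fin k → Alt n =>
      GapAllTuples.GapUpTo n ⌊(n : ℝ) ^ (1 - η)⌋₊ ε x)
      (fun x => GapUpToDim n (Real.exp ((n : ℝ) ^ (1 - δ))) ε x)
      (fun x hx => gapDim_of_gap hm hn4 hD hx)
  · refine Eventually.of_forall fun n => ?_
    rw [div_le_one (pow_pos (hpos n) k)]
    have h1 : (Nat.card {x : Fin k → Alt n //
        GapUpToDim n (Real.exp ((n : ℝ) ^ (1 - δ))) ε x} : ℝ) ≤ Nat.card (Fin k → Alt n) := by
      exact_mod_cast Nat.card_le_card_of_injective _ Subtype.val_injective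
    refine h1.trans (le_of_eq ?_)
    rw [Nat.card_fun, Nat.card_eq_fintype_card, Nat.card_eq_fintype_card, Fintype.card_fin]
    push_cast
    rfl

end

end Pool.Agent.Results.MP_75608d_al.SmallRepresentations
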